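import Pool.Agent.H456R3.S.F15

/-!
# MP_5ab436_an: optimal potentials for Schrödinger eigenvalues have a bounded set of finiteness

`lam k V` is the `k`-th min-max value of the form `∫ |∇u|² + ∫ V u²` on `H¹_V(ℝ^d)`.
`Admissible p V`: `V : ℝ^d → [0,∞]` is Lebesgue measurable and `∫ V^{-p} ≤ 1`.
-/

open MeasureTheory
open scoped ENNReal

namespace Pool.Agent.Results.MP_5ab436_an.BoundedFiniteness

/-- The `k`-th min-max value of `-Δ + V`: infimum over `k`-tuples `u` in `H¹_V(ℝ^d)` (with weak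
gradients `g`), linearly independent in `L²`, of the largest Rayleigh quotient on their span. -/
noncomputable def lam {d : ℕ} (k : ℕ) (V : (Fin d → ℝ) → ℝ≥0∞) : ℝ≥0∞ :=
  ⨅ (u : Fin k → (Fin d → ℝ) → ℝ) (g : Fin k → Fin d → (Fin d → ℝ) → ℝ)
       (_ : (∀ j, MemLp (u j) 2 volume) ∧ (∀ j i, MemLp (g j i) 2 volume) ∧
         (∀ j i (φ : (Fin d → ℝ) → ℝ), ContDiff ℝ ((⊤ : ℕ∞) : WithTop ℕ∞) φ →
            HasCompactSupport φ →
            ∫ x, u j x * fderiv ℝ φ x (Pi.single i (1 : ℝ)) = - ∫ x, g j i x * φ x) ∧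
         (∀ j, ∫⁻ x, V x * ENNReal.ofReal (u j x ^ 2) < ⊤) ∧
         (∀ c : Fin k → ℝ, c ≠ 0 →
            ∫⁻ x, ENNReal.ofReal ((∑ j, c j * u j x) ^ 2) ≠ 0)),
       ⨆ (c : Fin k → ℝ) (_ : c ≠ 0),
         (∫⁻ x, ((∑ i, ENNReal.ofReal ((∑ j, c j * g j i x) ^ 2))
              + V x * ENNReal.ofReal ((∑ j, c j * u j x) ^ 2))) /
           ∫⁻ x, ENNReal.ofReal ((∑ j, c j * u j x) ^ 2)

/-- The class `𝒜_p`: Lebesgue measurable `V : ℝ^d → [0,∞]` with `∫ V^{-p} ≤ 1`. -/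
def Admissible {d : ℕ} (p : ℝ) (V : (Fin d → ℝ) → ℝ≥0∞) : Prop :=
  AEMeasurable V volume ∧ ∫⁻ x, V x ^ (-p) ≤ 1

/-- `V` is an optimal potential for `λ_k`. -/
def Optimal {d : ℕ} (p : ℝ) (k : ℕ) (V : (Fin d → ℝ) → ℝ≥0∞) : Prop :=
  Admissible p V ∧ ∀ W : (Fin d → ℝ) → ℝ≥0∞, Admissible p W → lam k V ≤ lam k W

theorem lam_congr {d : ℕ} (k : ℕ) {V W : (Fin d → ℝ) → ℝ≥0∞} (h : V =ᵐ[volume] W) :
    lam k V = lam k W := by
  have h1 : ∀ u : (Fin d → ℝ) → ℝ, ∫⁻ x, V x * ENNReal.ofReal (u x ^ 2) =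
      ∫⁻ x, W x * ENNReal.ofReal (u x ^ 2) := fun u => lintegral_congr_ae (by
    filter_upwards [h] with x hx; rw [hx])
  have h2 : ∀ (a : (Fin d → ℝ) → ℝ≥0∞) (u : (Fin d → ℝ) → ℝ),
      ∫⁻ x, (a x + V x * ENNReal.ofReal (u x ^ 2)) = ∫⁻ x, (a x + W x * ENNReal.ofReal (u x ^ 2)) :=
    fun a u => lintegral_congr_ae (by filter_upwards [h] with x hx; rw [hx])
  unfold lam
  simp only [h1]
  refine iInf_congr fun u => iInf_congr fun g => iInf_congr fun _ => iSup_congr fun c =>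
    iSup_congr fun _ => ?_
  rw [h2 (fun x => ∑ i, ENNReal.ofReal ((∑ j, c j * g j i x) ^ 2)) (fun x => ∑ j, c j * u j x)]

/-- Q1: for all `d ≥ 1`, `0 < p ≤ 1`, `k ≥ 1`, every optimal potential for `λ_k` has a bounded set of
finiteness (up to a null set). -/
theorem result (d : ℕ) (hd : 1 ≤ d) (p : ℝ) (hp0 : 0 < p) (hp1 : p ≤ 1) (k : ℕ) (hk : 1 ≤ k)
    (V : (Fin d → ℝ) → ℝ≥0∞) (hV : Optimal p k V) :
    ∃ R : ℝ, ∀ᵐ x : Fin d → ℝ, V x < ∞ → ‖x‖ ≤ R := by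
  obtain ⟨⟨hVm, hV1⟩, hopt⟩ := hV
  have hae := hVm.ae_eq_mk
  have hlam : lam k V = Pool.Agent.H456R3.S.lamK k (hVm.mk V) := lam_congr k hae
  have hV2 : ∫⁻ x, (hVm.mk V) x ^ (-p) ≤ 1 := by
    refine le_trans (le_of_eq (lintegral_congr_ae ?_)) hV1
    filter_upwards [hae] with x hx; rw [hx]
  obtain ⟨R, hR⟩ := Pool.Agent.H456R3.S.bounded_finiteness hd hk hp0 hp1 hVm.measurable_mk hV2
    (fun W hW hW1 => by
      rw [← hlam]
      exact hopt W ⟨hW.aemeasurable, hW1⟩)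
  refine ⟨R, ?_⟩
  filter_upwards [hR, hae] with x h1 h2 h3
  by_contra h4
  rw [h2, h1 (not_le.1 h4)] at h3
  exact lt_irrefl _ h3

end Pool.Agent.Results.MP_5ab436_an.BoundedFiniteness
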